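import Pool.Agent.Helper74.EV4.Low1

/-!
# E5, leaf C: a bound of the quotients of consecutive coefficients of `∏ (1 + v X)`
-/

set_option autoImplicit false

namespace Pool.Agent.Helper67.E5

open Polynomial Pool.Agent.Helper74.EV4

theorem lp_nonneg {V : Multiset ℝ} (hV : ∀ v ∈ V, 0 ≤ v) (n : ℕ) : 0 ≤ (lp V).coeff n := by
  have := (PF2.lp hV).1 n
  rwa [cz_nat] at this

theorem lp_ratio {V : Multiset ℝ} (hV : ∀ v ∈ V, 0 ≤ v) {m i : ℕ} (hm : 1 ≤ m) (hi : m ≤ i) :
    (lp V).coeff (m - 1) * (lp V).coeff i ≤ (lp V).coeff m * (lp V).coeff (i - 1) := by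
  rcases eq_or_lt_of_le hi with rfl | hlt
  · exact le_of_eq (mul_comm _ _)
  · have h := (PF2.lp hV).2 (m : ℤ) ((i - 1 : ℕ) : ℤ) (by omega)
    rw [show (m : ℤ) - 1 = ((m - 1 : ℕ) : ℤ) by omega,
      show ((i - 1 : ℕ) : ℤ) + 1 = ((i : ℕ) : ℤ) by omega, cz_nat, cz_nat, cz_nat, cz_nat] at h
    exact h

theorem lp_ratio_pow {V : Multiset ℝ} (hV : ∀ v ∈ V, 0 ≤ v) {m q : ℕ} (hm : 1 ≤ m) (h : ℕ)
    (hq : m + h ≤ q) :
    (lp V).coeff (m - 1) ^ h * (lp V).coeff q ≤ (lp V).coeff m ^ h * (lp V).coeff (q - h) := by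
  induction h with
  | zero => simp
  | succ h ih =>
    have h1 := ih (by omega)
    have h2 := lp_ratio hV (i := q - h) hm (by omega)
    have h3 : q - h - 1 = q - (h + 1) := by omega
    rw [h3] at h2
    have h0 := lp_nonneg hV (m - 1)
    have h0' := lp_nonneg hV m
    calc (lp V).coeff (m - 1) ^ (h + 1) * (lp V).coeff q
        = (lp V).coeff (m - 1) * ((lp V).coeff (m - 1) ^ h * (lp V).coeff q) := by ring
      _ ≤ (lp V).coeff (m - 1) * ((lp V).coeff m ^ h * (lp V).coeff (q - h)) :=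
        mul_le_mul_of_nonneg_left h1 h0
      _ = (lp V).coeff m ^ h * ((lp V).coeff (m - 1) * (lp V).coeff (q - h)) := by ring
      _ ≤ (lp V).coeff m ^ h * ((lp V).coeff m * (lp V).coeff (q - (h + 1))) :=
        mul_le_mul_of_nonneg_left h2 (pow_nonneg h0' _)
      _ = (lp V).coeff m ^ (h + 1) * (lp V).coeff (q - (h + 1)) := by ring

theorem lp_eval (V : Multiset ℝ) (r : ℝ) : (lp V).eval r = (V.map fun v => 1 + v * r).prod := by
  induction V using Multiset.induction_on with
  | empty => simp [Pool.Agent.Helper74.EV4.lp]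
  | cons v V ih =>
    rw [lp_cons, eval_mul, ih, Multiset.map_cons, Multiset.prod_cons]
    simp

theorem coeff_pow_le {V : Multiset ℝ} (hV : ∀ v ∈ V, 0 ≤ v) {r : ℝ} (hr : 0 ≤ r) (j : ℕ) :
    (lp V).coeff j * r ^ j ≤ (lp V).eval r := by
  rw [eval_eq_sum_range]
  rcases le_or_gt j (lp V).natDegree with hj | hj
  · exact Finset.single_le_sum (f := fun i => (lp V).coeff i * r ^ i)
      (fun i _ => mul_nonneg (lp_nonneg hV i) (pow_nonneg hr i))
      (Finset.mem_range.2 (Nat.lt_succ_of_le hj))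
  · rw [coeff_eq_zero_of_natDegree_lt hj, zero_mul]
    exact Finset.sum_nonneg fun i _ => mul_nonneg (lp_nonneg hV i) (pow_nonneg hr i)

theorem lp_coeff_gt (V : Multiset ℝ) (j : ℕ) (hj : Multiset.card V < j) : (lp V).coeff j = 0 := by
  induction V using Multiset.induction_on generalizing j with
  | empty =>
    have e : lp 0 = 1 := by simp [Pool.Agent.Helper74.EV4.lp]
    rw [e, coeff_one, if_neg (by simp at hj; omega)]
  | cons v V ih =>
    rw [Multiset.card_cons] at hj
    obtain ⟨i, rfl⟩ : ∃ i, j = i + 1 := ⟨j - 1, by omega⟩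
    have e : Pool.Agent.Helper74.EV4.lp (v ::ₘ V) = Pool.Agent.Helper74.EV4.lp V + C v * (X * Pool.Agent.Helper74.EV4.lp V) := by rw [lp_cons, C_1]; ring
    rw [e, coeff_add, coeff_C_mul, coeff_X_mul, ih _ (by omega), ih _ (by omega)]
    ring

theorem lp_coeff_card (V : Multiset ℝ) : (lp V).coeff (Multiset.card V) = V.prod := by
  induction V using Multiset.induction_on with
  | empty => simp [Pool.Agent.Helper74.EV4.lp]
  | cons v V ih =>
    have e : Pool.Agent.Helper74.EV4.lp (v ::ₘ V) = Pool.Agent.Helper74.EV4.lp V + C v * (X * Pool.Agent.Helper74.EV4.lp V) := by rw [lp_cons, C_1]; ring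
    rw [Multiset.card_cons, e, coeff_add, coeff_C_mul, coeff_X_mul, ih, lp_coeff_gt V _ (by omega),
      Multiset.prod_cons]
    ring

theorem lp_coeff_zero (V : Multiset ℝ) : (lp V).coeff 0 = 1 := by
  induction V using Multiset.induction_on with
  | empty => simp [Pool.Agent.Helper74.EV4.lp]
  | cons v V ih =>
    rw [lp_cons, mul_coeff_zero, ih]
    simp

theorem lp_add (V W : Multiset ℝ) : lp (V + W) = lp V * lp W := by
  unfold Pool.Agent.Helper74.EV4.lp
  rw [Multiset.map_add, Multiset.prod_add]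

theorem prod_le_coeff {A B : Multiset ℝ} (hA : ∀ v ∈ A, 0 ≤ v) (hB : ∀ v ∈ B, 0 ≤ v) :
    A.prod ≤ (lp (A + B)).coeff (Multiset.card A) := by
  rw [lp_add, coeff_mul]
  have h := Finset.single_le_sum (s := Finset.HasAntidiagonal.antidiagonal (Multiset.card A))
    (f := fun x : ℕ × ℕ => (lp A).coeff x.1 * (lp B).coeff x.2)
    (fun x _ => mul_nonneg (lp_nonneg hA _) (lp_nonneg hB _))
    (a := (Multiset.card A, 0)) (by simp)
  simp only [lp_coeff_card, lp_coeff_zero, mul_one] at h
  exact h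

theorem big_prod (A : Multiset ℝ) {r : ℝ} (hr : 0 < r) (hA : ∀ v ∈ A, 0 < v) :
    (A.map fun v => 1 + v * r).prod ≤
      Real.exp ((A.map fun v => (v * r)⁻¹).sum) * (r ^ Multiset.card A * A.prod) := by
  induction A using Multiset.induction_on with
  | empty => simp
  | cons v A ih =>
    have h1 := ih fun x hx => hA x (Multiset.mem_cons_of_mem hx)
    have hv : 0 < v := hA v (Multiset.mem_cons_self v A)
    have hvr : 0 < v * r := mul_pos hv hr
    rw [Multiset.map_cons, Multiset.prod_cons, Multiset.map_cons, Multiset.sum_cons, Real.exp_add,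
      Multiset.card_cons, Multiset.prod_cons, pow_succ]
    have h2 : 1 + v * r ≤ Real.exp ((v * r)⁻¹) * (v * r) := by
      have h3 := Real.add_one_le_exp ((v * r)⁻¹)
      calc 1 + v * r = ((v * r)⁻¹ + 1) * (v * r) := by field_simp
        _ ≤ Real.exp ((v * r)⁻¹) * (v * r) := mul_le_mul_of_nonneg_right h3 hvr.le
    have h4 : 0 ≤ (A.map fun v => 1 + v * r).prod := by
      apply Multiset.prod_nonneg
      intro x hx
      obtain ⟨w, hw, rfl⟩ := Multiset.mem_map.1 hx
      have := hA w (Multiset.mem_cons_of_mem hw)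
      positivity
    calc (1 + v * r) * (A.map fun v => 1 + v * r).prod
        ≤ (Real.exp ((v * r)⁻¹) * (v * r)) *
          (Real.exp ((A.map fun v => (v * r)⁻¹).sum) * (r ^ Multiset.card A * A.prod)) :=
        mul_le_mul h2 h1 h4 (by positivity)
      _ = _ := by ring

theorem small_prod (B : Multiset ℝ) {r : ℝ} (hr : 0 < r) (hB : ∀ v ∈ B, 0 < v) :
    (B.map fun v => 1 + v * r).prod ≤ Real.exp ((B.map fun v => v * r).sum) := by
  induction B using Multiset.induction_on with
  | empty => simp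
  | cons v B ih =>
    have h1 := ih fun x hx => hB x (Multiset.mem_cons_of_mem hx)
    have hv : 0 < v := hB v (Multiset.mem_cons_self v B)
    rw [Multiset.map_cons, Multiset.prod_cons, Multiset.map_cons, Multiset.sum_cons, Real.exp_add]
    have h2 : 1 + v * r ≤ Real.exp (v * r) := by
      have h3 := Real.add_one_le_exp (v * r)
      linarith
    have h4 : 0 ≤ (B.map fun v => 1 + v * r).prod := by
      apply Multiset.prod_nonneg
      intro x hx
      obtain ⟨w, hw, rfl⟩ := Multiset.mem_map.1 hx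
      have := hB w (Multiset.mem_cons_of_mem hw)
      positivity
    exact mul_le_mul h2 h1 h4 (Real.exp_pos _).le

open Classical in
/-- LEAF C -/
theorem ratio_bound {V : Multiset ℝ} (hV : ∀ v ∈ V, 0 < v) {r : ℝ} (hr : 0 < r) {h : ℕ} (h1 : 1 ≤ h)
    (hs : ((V.filter fun v => 1 ≤ v * r).map fun v => (v * r)⁻¹).sum + ((V.filter fun v => ¬ 1 ≤ v * r).map fun v => v * r).sum ≤ h)
    (m : ℕ) (hm1 : 1 ≤ m) (hm : m + h ≤ Multiset.card (V.filter fun v => 1 ≤ v * r)) :
    (lp V).coeff (m - 1) ≤ Real.exp 1 * r * (lp V).coeff m := by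
  set A := V.filter fun v => 1 ≤ v * r with hA
  set B := V.filter fun v => ¬ 1 ≤ v * r with hB
  set q := Multiset.card A with hq
  have hAB : A + B = V := Multiset.filter_add_not _ _
  have hA0 : ∀ v ∈ A, 0 < v := fun v hv => hV v (Multiset.mem_of_mem_filter hv)
  have hB0 : ∀ v ∈ B, 0 < v := fun v hv => hV v (Multiset.mem_of_mem_filter hv)
  have hV0 : ∀ v ∈ V, 0 ≤ v := fun v hv => (hV v hv).le
  have hprod : 0 < A.prod := Multiset.prod_pos hA0
  have huq : A.prod ≤ (lp V).coeff q := by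
    have := prod_le_coeff (A := A) (B := B) (fun v hv => (hA0 v hv).le) (fun v hv => (hB0 v hv).le)
    rwa [hAB] at this
  have huq0 : 0 < (lp V).coeff q := lt_of_lt_of_le hprod huq
  -- the value at `r`
  have hev : (lp V).eval r ≤ Real.exp h * (r ^ q * (lp V).coeff q) := by
    rw [lp_eval, ← hAB, Multiset.map_add, Multiset.prod_add, hAB]
    have h3 := big_prod A hr hA0
    have h4 := small_prod B hr hB0
    have h5 : 0 ≤ (B.map fun v => 1 + v * r).prod := by
      apply Multiset.prod_nonneg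
      intro x hx
      obtain ⟨w, hw, rfl⟩ := Multiset.mem_map.1 hx
      have := hB0 w hw
      positivity
    calc (A.map fun v => 1 + v * r).prod * (B.map fun v => 1 + v * r).prod
        ≤ (Real.exp ((A.map fun v => (v * r)⁻¹).sum) * (r ^ q * A.prod)) *
          Real.exp ((B.map fun v => v * r).sum) := mul_le_mul h3 h4 h5 (by positivity)
      _ = Real.exp ((A.map fun v => (v * r)⁻¹).sum + (B.map fun v => v * r).sum) *
          (r ^ q * A.prod) := by rw [Real.exp_add]; ring
      _ ≤ Real.exp h * (r ^ q * (lp V).coeff q) := by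
        refine mul_le_mul (Real.exp_le_exp.2 hs) ?_ (by positivity) (Real.exp_pos _).le
        exact mul_le_mul_of_nonneg_left huq (by positivity)
  have hlow := coeff_pow_le hV0 hr.le (q - h)
  have hqh : r ^ q = r ^ (q - h) * r ^ h := by rw [← pow_add]; congr 1; omega
  have h6 : (lp V).coeff (q - h) ≤ (Real.exp 1 * r) ^ h * (lp V).coeff q := by
    have h7 : (lp V).coeff (q - h) * r ^ (q - h) ≤
        ((Real.exp 1 * r) ^ h * (lp V).coeff q) * r ^ (q - h) := by
      refine (hlow.trans hev).trans (le_of_eq ?_)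
      rw [hqh, mul_pow, Real.exp_one_pow]
      ring
    exact le_of_mul_le_mul_right h7 (pow_pos hr _)
  have h8 := lp_ratio_pow hV0 hm1 h hm
  have h9 : (lp V).coeff (m - 1) ^ h ≤ (Real.exp 1 * r * (lp V).coeff m) ^ h := by
    have h10 : (lp V).coeff (m - 1) ^ h * (lp V).coeff q ≤
        (Real.exp 1 * r * (lp V).coeff m) ^ h * (lp V).coeff q := by
      refine h8.trans ?_
      calc (lp V).coeff m ^ h * (lp V).coeff (q - h)
          ≤ (lp V).coeff m ^ h * ((Real.exp 1 * r) ^ h * (lp V).coeff q) :=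
          mul_le_mul_of_nonneg_left h6 (pow_nonneg (lp_nonneg hV0 m) _)
        _ = _ := by rw [mul_pow (Real.exp 1 * r)]; ring
    exact le_of_mul_le_mul_right h10 huq0
  have h11 : 0 ≤ Real.exp 1 * r * (lp V).coeff m :=
    mul_nonneg (by positivity) (lp_nonneg hV0 m)
  exact (pow_le_pow_iff_left₀ (lp_nonneg hV0 _) h11 (by omega)).1 h9

end Pool.Agent.Helper67.E5
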