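import Pool.Agent.Helper85.E5.UL

/-!
# E5, leaf B1: weighted log-concavity is kept by multiplication with `∏ (1 + v X)`
-/

set_option autoImplicit false

namespace Pool.Agent.Helper67.E5

open Polynomial Pool.Agent.Helper74.EV4 Pool.Agent.Helper85.E5

/-- the class `UL` is closed under multiplication with `1 + v X` -/
theorem UL_lin {A : ℝ} (hA : 0 ≤ A) {a : ℤ → ℝ} (h : UL A a) {v : ℝ} (hv : 0 ≤ v) :
    UL A (fun n => 1 * a n + v * a (n - 1)) := by
  obtain ⟨h0, hz, hc⟩ := h
  refine ⟨fun n => add_nonneg (by rw [one_mul]; exact h0 n) (mul_nonneg hv (h0 _)), ?_, ?_⟩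
  · intro n hn
    simp only [hz n hn, hz (n - 1) (by omega)]
    ring
  · intro i j hij
    have hijR : (i : ℝ) ≤ (j : ℝ) := by exact_mod_cast hij
    rcases lt_or_ge i 0 with hi | hi
    · simp only [hz (i - 1) (by omega), hz (i - 1 - 1) (by omega), hz i hi]
      simp
    · have hiR : (0 : ℝ) ≤ (i : ℝ) := by exact_mod_cast hi
      have e1 : i - 1 - 1 = i - 2 := by ring
      have e2 : j + 1 - 1 = j := by ring
      simp only [e1, e2, one_mul]
      -- the three coefficients in `v`
      have k0 := hc i j hij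
      have k2 : ((j : ℝ) + 1 + A) * (a (i - 2) * a j) ≤ ((i : ℝ) + A) * (a (i - 1) * a (j - 1)) := by
        rcases lt_or_ge i 2 with hi2 | hi2
        · rw [hz (i - 2) (by omega)]
          have : 0 ≤ ((i : ℝ) + A) * (a (i - 1) * a (j - 1)) :=
            mul_nonneg (by linarith) (mul_nonneg (h0 _) (h0 _))
          linarith
        · have hi2R : (2 : ℝ) ≤ (i : ℝ) := by exact_mod_cast hi2
          have h3 := hc (i - 1) (j - 1) (by omega)
          have e3 : i - 1 - 1 = i - 2 := by ring
          have e4 : j - 1 + 1 = j := by ring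
          rw [e3, e4] at h3
          push_cast at h3
          have hp : 0 ≤ a (i - 1) * a (j - 1) := mul_nonneg (h0 _) (h0 _)
          have hq : 0 ≤ a (i - 2) * a j := mul_nonneg (h0 _) (h0 _)
          have hj : 0 < (j : ℝ) + A := by linarith
          have h4 : ((j : ℝ) + A) * (((j : ℝ) + 1 + A) * (a (i - 2) * a j)) ≤
              ((j : ℝ) + A) * (((i : ℝ) + A) * (a (i - 1) * a (j - 1))) := by
            calc ((j : ℝ) + A) * (((j : ℝ) + 1 + A) * (a (i - 2) * a j))
                = ((j : ℝ) + 1 + A) * (((j : ℝ) - 1 + 1 + A) * (a (i - 2) * a j)) := by ring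
              _ ≤ ((j : ℝ) + 1 + A) * (((i : ℝ) - 1 + A) * (a (i - 1) * a (j - 1))) :=
                mul_le_mul_of_nonneg_left h3 (by linarith)
              _ = (((j : ℝ) + 1 + A) * ((i : ℝ) - 1 + A)) * (a (i - 1) * a (j - 1)) := by ring
              _ ≤ (((j : ℝ) + A) * ((i : ℝ) + A)) * (a (i - 1) * a (j - 1)) := by
                refine mul_le_mul_of_nonneg_right ?_ hp
                nlinarith
              _ = _ := by ring
          exact le_of_mul_le_mul_left h4 hj
      have k1 : ((j : ℝ) + 1 + A) * (a (i - 1) * a j + a (i - 2) * a (j + 1)) ≤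
          ((i : ℝ) + A) * (a i * a (j - 1) + a (i - 1) * a j) := by
        have h3 := hc (i - 1) j (by omega)
        have e3 : i - 1 - 1 = i - 2 := by ring
        rw [e3] at h3
        push_cast at h3
        rcases eq_or_lt_of_le hij with rfl | hlt
        · have e5 : a (i - 1) * a i = a i * a (i - 1) := mul_comm _ _
          nlinarith [h3]
        · have h4 := hc i (j - 1) (by omega)
          have e4 : j - 1 + 1 = j := by ring
          rw [e4] at h4
          push_cast at h4
          nlinarith [h3, h4]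
      have k1' := mul_le_mul_of_nonneg_left k1 hv
      have k2' := mul_le_mul_of_nonneg_left k2 (mul_nonneg hv hv)
      nlinarith [k0, k1', k2']

/-- LEAF B1 -/
theorem UL_mul_lp {A : ℝ} (hA : 0 ≤ A) {p : ℝ[X]} (hp : UL A (cz p)) {V : Multiset ℝ}
    (hV : ∀ v ∈ V, 0 ≤ v) : UL A (cz (Pool.Agent.Helper74.EV4.lp V * p)) := by
  induction V using Multiset.induction_on with
  | empty => simpa [Pool.Agent.Helper74.EV4.lp] using hp
  | cons v V ih =>
    rw [lp_cons, mul_assoc, cz_lin']
    exact UL_lin hA (ih fun x hx => hV x (Multiset.mem_cons_of_mem hx))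
      (hV v (Multiset.mem_cons_self v V))

end Pool.Agent.Helper67.E5
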